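import Pool.Agent.TH362.Neck.LowS
import Pool.Agent.TH362.Neck.K6

/-!
Fair splittings of blocks of integers by at most two cuts: five colours are needed and six suffice.
-/

set_option autoImplicit false

namespace Pool.Agent.Results.MP_9837da_co.GTwoOneFiveOrSix

open Pool.Agent.H257R3.Neck
open Pool.Agent.TH362.Neck

/-- `5 ≤ g(2,1) ≤ 6` -/
theorem result : 5 ≤ g 2 1 ∧ g 2 1 ≤ 6 := by
  refine ⟨five_le, ?_⟩
  have hav : Avoidable 2 1 6 := by
    refine avoidable_of_word (fw K6.D.hf K6.D.L) ?_ ?_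
    · intro n
      obtain ⟨hlt, -, hL2, hK1, -, -, -⟩ := K6.ok.hh
      exact fw_lt hL2 (by omega) hlt n
    · intro p0 p1 p2 p3 h01 h12 h23 h03
      exact K6.ok.no_split p0 p1 p2 p3 h01 h12 h23 h03
  unfold Pool.Agent.H257R3.Neck.g
  exact iInf₂_le (6 : ℕ) hav

end Pool.Agent.Results.MP_9837da_co.GTwoOneFiveOrSix
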